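import Pool.Agent.W602.RG.Stm

/-!
# Project RG: part EXT
-/

set_option autoImplicit false

namespace Pool.Agent.W797.RG

open Pool.Agent.W602.RG
open scoped TensorProduct

section

variable {k L Ω E : Type} [Field k] [Field L] [Field Ω] [Field E] [Algebra k L]
    [Algebra k Ω] [Algebra k E] [Algebra L E] [Algebra Ω E] [IsScalarTower k L E]
    [IsScalarTower k Ω E]

variable (k L Ω E) in
/-- the multiplication map -/
noncomputable def fm : Ω ⊗[k] L →ₐ[k] E :=
  Algebra.TensorProduct.productMap (IsScalarTower.toAlgHom k Ω E) (IsScalarTower.toAlgHom k L E)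

theorem fm_tmul (ω : Ω) (l : L) : fm k L Ω E (ω ⊗ₜ l) = algebraMap Ω E ω * algebraMap L E l := by
  unfold fm
  rw [Algebra.TensorProduct.productMap_apply_tmul]
  rfl

theorem fm_smul (ω : Ω) (x : Ω ⊗[k] L) :
    fm k L Ω E (ω • x) = algebraMap Ω E ω * fm k L Ω E x := by
  induction x using TensorProduct.induction_on with
  | zero => simp
  | tmul a b =>
    rw [TensorProduct.smul_tmul', fm_tmul, fm_tmul, smul_eq_mul, map_mul, mul_assoc]
  | add x y hx hy => rw [smul_add, map_add, hx, hy, map_add, mul_add]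

theorem fm_inj (h : BC k L Ω E) : Function.Injective (fm k L Ω E) := by
  rw [injective_iff_map_eq_zero]
  intro x hx
  let b := Module.Basis.ofVectorSpace k L
  let B := Algebra.TensorProduct.basis Ω b
  have hli : LinearIndependent Ω (fun i => algebraMap L E (b i)) := by
    rw [linearIndependent_iff_finset_linearIndependent]
    intro s
    let e := s.equivFin
    have h1 : LinearIndependent k (fun i : Fin s.card => b (e.symm i)) :=
      b.linearIndependent.comp _ (Subtype.val_injective.comp e.symm.injective)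
    have h2 := h.ld _ _ h1
    have h3 := h2.comp e e.injective
    convert h3 using 1
    funext i
    simp [Function.comp]
  have h0 : ∑ i ∈ (B.repr x).support, (B.repr x i) • algebraMap L E (b i) = 0 := by
    have e1 := B.linearCombination_repr x
    rw [Finsupp.linearCombination_apply, Finsupp.sum] at e1
    rw [← e1, map_sum] at hx
    rw [← hx]
    refine Finset.sum_congr rfl fun i _ => ?_
    rw [fm_smul, Algebra.TensorProduct.basis_apply, fm_tmul, map_one, one_mul, Algebra.smul_def]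
  rw [linearIndependent_iff'] at hli
  have h1 := hli _ _ h0
  have h2 : B.repr x = 0 := by
    ext i
    by_cases hi : i ∈ (B.repr x).support
    · exact h1 i hi
    · exact Finsupp.notMem_support_iff.1 hi
  exact B.repr.map_eq_zero_iff.1 h2

theorem span_le (a : E) (ha : a ∈ Submodule.span Ω (Set.range (algebraMap L E))) :
    ∃ x, fm k L Ω E x = a := by
  induction ha using Submodule.span_induction with
  | mem x h =>
    obtain ⟨l, rfl⟩ := h
    exact ⟨1 ⊗ₜ l, by rw [fm_tmul, map_one, one_mul]⟩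
  | zero => exact ⟨0, map_zero _⟩
  | add x y _ _ hx hy =>
    obtain ⟨u, rfl⟩ := hx
    obtain ⟨v, rfl⟩ := hy
    exact ⟨u + v, map_add _ _ _⟩
  | smul c x _ hx =>
    obtain ⟨u, rfl⟩ := hx
    exact ⟨c • u, by rw [fm_smul, Algebra.smul_def]⟩

/-- the ring map to the dual numbers given by a derivation -/
noncomputable def f1 (D0 : Derivation k Ω Ω) : Ω →ₐ[k] TrivSqZeroExt E E where
  toFun ω := TrivSqZeroExt.inl (algebraMap Ω E ω) + TrivSqZeroExt.inr (algebraMap Ω E (D0 ω))
  map_one' := by simp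
  map_zero' := by simp
  map_add' a b := by
    ext
    · simp
    · simp only [map_add, TrivSqZeroExt.snd_add, TrivSqZeroExt.snd_inl, TrivSqZeroExt.snd_inr,
        zero_add]
  map_mul' a b := by
    ext
    · simp
    · simp only [Derivation.leibniz, smul_eq_mul, map_add, map_mul, TrivSqZeroExt.snd_add,
        TrivSqZeroExt.snd_inl, TrivSqZeroExt.snd_inr, zero_add, TrivSqZeroExt.snd_mul,
        TrivSqZeroExt.fst_add, TrivSqZeroExt.fst_inl, TrivSqZeroExt.fst_inr, add_zero,
        op_smul_eq_smul]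
  commutes' c := by
    ext
    · simp [TrivSqZeroExt.algebraMap_eq_inl', ← IsScalarTower.algebraMap_apply]
    · simp [TrivSqZeroExt.algebraMap_eq_inl']

/-- the ring map to the dual numbers given by the inclusion -/
noncomputable def f2 : L →ₐ[k] TrivSqZeroExt E E where
  toFun l := TrivSqZeroExt.inl (algebraMap L E l)
  map_one' := by simp
  map_zero' := by simp
  map_add' a b := by simp
  map_mul' a b := by simp
  commutes' c := by
    ext
    · simp [TrivSqZeroExt.algebraMap_eq_inl', ← IsScalarTower.algebraMap_apply]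
    · simp [TrivSqZeroExt.algebraMap_eq_inl']

end

theorem main : Pool.Agent.W602.RG.S_EXT := by
  intro k L Ω E _ _ _ _ _ _ _ _ _ hBC D0
  have := hBC.towerL
  have := hBC.towerO
  let ψ : Ω ⊗[k] L →ₐ[k] TrivSqZeroExt E E :=
    Algebra.TensorProduct.productMap (f1 D0) f2
  have hψ : ∀ (ω : Ω) (l : L), ψ (ω ⊗ₜ l) = f1 D0 ω * f2 (k := k) l := fun ω l =>
    Algebra.TensorProduct.productMap_apply_tmul _ _ _ _
  have hfst : ∀ x, (ψ x).fst = fm k L Ω E x := by
    intro x
    induction x using TensorProduct.induction_on with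
    | zero => simp
    | tmul a b =>
      rw [hψ, fm_tmul, TrivSqZeroExt.fst_mul]
      simp [f1, f2]
    | add x y hx hy => rw [map_add, map_add, TrivSqZeroExt.fst_add, hx, hy]
  let alg : Algebra (Ω ⊗[k] L) E := (fm k L Ω E).toRingHom.toAlgebra
  have halg : ∀ x, algebraMap (Ω ⊗[k] L) E x = fm k L Ω E x := fun _ => rfl
  let M : Submonoid (Ω ⊗[k] L) := (nonZeroDivisors E).comap (fm k L Ω E).toRingHom
  have hM : ∀ x, x ∈ M ↔ fm k L Ω E x ≠ 0 := by
    intro x
    show fm k L Ω E x ∈ nonZeroDivisors E ↔ _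
    rw [mem_nonZeroDivisors_iff_ne_zero]
  have hloc : IsLocalization M E := by
    refine ⟨?_, ?_, ?_⟩
    · rintro ⟨y, hy⟩
      rw [isUnit_iff_ne_zero]
      exact (hM y).1 hy
    · intro e
      obtain ⟨a, ha, b, hb, hb0, he⟩ := hBC.gen e
      obtain ⟨x, rfl⟩ := span_le (k := k) a ha
      obtain ⟨y, rfl⟩ := span_le (k := k) b hb
      refine ⟨(x, ⟨y, (hM y).2 hb0⟩), ?_⟩
      show e * fm k L Ω E y = fm k L Ω E x
      rw [he, div_mul_cancel₀ _ hb0]
    · intro x y hxy
      exact ⟨1, by rw [fm_inj hBC hxy]⟩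
  have hu : ∀ y : M, IsUnit (ψ.toRingHom y) := by
    rintro ⟨y, hy⟩
    rw [TrivSqZeroExt.isUnit_iff_isUnit_fst, isUnit_iff_ne_zero]
    show (ψ y).fst ≠ 0
    rw [hfst]
    exact (hM y).1 hy
  let Λ : E →+* TrivSqZeroExt E E := IsLocalization.lift (M := M) hu
  have hΛ : ∀ x, Λ (fm k L Ω E x) = ψ x := fun x => IsLocalization.lift_eq (M := M) hu x
  have hid : ∀ e, (Λ e).fst = e := by
    intro e
    obtain ⟨⟨x, y⟩, hxy⟩ := IsLocalization.surj M e
    have hy := (hM _).1 y.2
    have h1 : Λ e * Λ (fm k L Ω E y) = Λ (fm k L Ω E x) := by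
      rw [← map_mul]
      exact congrArg Λ hxy
    rw [hΛ, hΛ] at h1
    have h2 := congrArg TrivSqZeroExt.fst h1
    rw [TrivSqZeroExt.fst_mul, hfst, hfst] at h2
    apply mul_right_cancel₀ hy
    rw [h2]
    exact hxy.symm
  have hleib : ∀ a b, (Λ (a * b)).snd = a • (Λ b).snd + b • (Λ a).snd := by
    intro a b
    rw [map_mul, TrivSqZeroExt.snd_mul, hid, hid, op_smul_eq_smul]
  have hL : ∀ l : L, Λ (algebraMap L E l) = TrivSqZeroExt.inl (algebraMap L E l) := by
    intro l
    have : algebraMap L E l = fm k L Ω E (1 ⊗ₜ l) := by rw [fm_tmul, map_one, one_mul]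
    rw [this, hΛ, hψ, ← this, map_one, one_mul]
    rfl
  have hadd : ∀ a b, (Λ (a + b)).snd = (Λ a).snd + (Λ b).snd := fun a b => by
    rw [map_add, TrivSqZeroExt.snd_add]
  have hsm : ∀ (l : L) (e : E), (Λ (l • e)).snd = l • (Λ e).snd := fun l e => by
    rw [Algebra.smul_def, hleib, hL, TrivSqZeroExt.snd_inl, smul_zero, add_zero,
      smul_eq_mul, Algebra.smul_def]
  let D1 : E →ₗ[L] E := ⟨⟨fun e => (Λ e).snd, hadd⟩, hsm⟩
  refine ⟨Derivation.mk' D1 hleib, ?_⟩
  intro ω
  show (Λ (algebraMap Ω E ω)).snd = _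
  have : algebraMap Ω E ω = fm k L Ω E (ω ⊗ₜ 1) := by rw [fm_tmul, map_one, mul_one]
  rw [this, hΛ, hψ, map_one, mul_one]
  show (TrivSqZeroExt.inl (algebraMap Ω E ω) + TrivSqZeroExt.inr (algebraMap Ω E (D0 ω)) :
    TrivSqZeroExt E E).snd = _
  rw [TrivSqZeroExt.snd_add, TrivSqZeroExt.snd_inl, TrivSqZeroExt.snd_inr, zero_add]

end Pool.Agent.W797.RG
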